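import Pool.Agent.N102.CP.Stm
import Pool.Agent.H379R3.Reg

/-!
Project CP (helper102): local equations of a regular point (helper717).
-/

set_option autoImplicit false
set_option linter.unusedVariables false

universe u

open IsLocalRing MvPolynomial

namespace Pool.Agent.N717.CP

/-- A surjection of a local ring onto a regular local ring is injective if the maximal ideal of
the first ring has few generators. -/
theorem inj_of {S P : Type u} [CommRing S] [IsLocalRing S] [IsNoetherianRing S] [CommRing P]
    [IsRegularLocalRing P] (θ : S →+* P) (hθ : Function.Surjective θ) (G : Set S)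
    (hGf : G.Finite) (hG : Ideal.span G = maximalIdeal S)
    (hc : (G.ncard : WithBot ℕ∞) ≤ ringKrullDim P) : Function.Injective θ := by
  have h1 : (maximalIdeal S).spanFinrank ≤ G.ncard := by
    rw [← hG]
    exact Submodule.spanFinrank_span_le_ncard_of_finite hGf
  have h1' : ((maximalIdeal S).spanFinrank : WithBot ℕ∞) ≤ (G.ncard : WithBot ℕ∞) := by
    exact_mod_cast h1
  have h2 : ringKrullDim P ≤ ringKrullDim S := ringKrullDim_le_of_surjective θ hθ
  have hreg : IsRegularLocalRing S :=
    IsRegularLocalRing.of_spanFinrank_maximalIdeal_le S ((h1'.trans hc).trans h2)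
  have hdom : IsDomain S := Pool.Agent.H379R3.isDomain S
  rw [injective_iff_map_eq_zero]
  intro x hx
  by_contra hne
  have h3 := ringKrullDim_succ_le_of_surjective θ hθ (mem_nonZeroDivisors_of_ne_zero hne) hx
  obtain ⟨d, hd⟩ := Pool.Agent.H379R3.exists_dim_eq (B := P)
  rw [← (isRegularLocalRing_iff S).1 hreg] at h3
  have h4 := h3.trans (h1'.trans hc)
  rw [hd] at h4
  have h5 : d + 1 ≤ d := by exact_mod_cast h4
  omega

section

variable {K P : Type u} [Field K] [CommRing P] [Algebra K P] [IsRegularLocalRing P]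
  {m : ℕ} (a : Fin m → P)

/-- polynomials without constant term -/
theorem mem_span_X (p : MvPolynomial (Fin m) K) :
    p - C (constantCoeff p) ∈ Ideal.span (Set.range (X : Fin m → MvPolynomial (Fin m) K)) := by
  induction p using MvPolynomial.induction_on with
  | C c => simp
  | add p q hp hq =>
    have : p + q - C (constantCoeff (p + q)) =
        (p - C (constantCoeff p)) + (q - C (constantCoeff q)) := by
      rw [map_add, map_add]; ring
    rw [this]
    exact Ideal.add_mem _ hp hq
  | mul_X p i hp =>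
    rw [map_mul, constantCoeff_X, mul_zero, map_zero, sub_zero]
    exact Ideal.mul_mem_left _ _ (Ideal.subset_span ⟨i, rfl⟩)

theorem aeval_sub_mem (ha : ∀ i, a i ∈ maximalIdeal P) (p : MvPolynomial (Fin m) K) :
    aeval a p - algebraMap K P (constantCoeff p) ∈ Ideal.span (Set.range a) := by
  have h1 : Ideal.span (Set.range (X : Fin m → MvPolynomial (Fin m) K)) ≤
      (Ideal.span (Set.range a)).comap (aeval a : MvPolynomial (Fin m) K →ₐ[K] P).toRingHom := by
    rw [Ideal.span_le]
    rintro _ ⟨i, rfl⟩
    change aeval a (X i) ∈ Ideal.span (Set.range a)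
    rw [aeval_X]
    exact Ideal.subset_span ⟨i, rfl⟩
  have h2 := h1 (mem_span_X p)
  change aeval a (p - C (constantCoeff p)) ∈ Ideal.span (Set.range a) at h2
  rw [map_sub, aeval_C] at h2
  exact h2

theorem isUnit_aeval (ha : ∀ i, a i ∈ maximalIdeal P) (p : MvPolynomial (Fin m) K)
    (hp : constantCoeff p ≠ 0) : IsUnit (aeval a p) := by
  by_contra h
  have h1 : aeval a p ∈ maximalIdeal P := (mem_maximalIdeal _).2 h
  have h2 : aeval a p - algebraMap K P (constantCoeff p) ∈ maximalIdeal P := by
    refine (Ideal.span_le.2 ?_) (aeval_sub_mem a ha p)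
    rintro _ ⟨i, rfl⟩
    exact ha i
  have h3 : algebraMap K P (constantCoeff p) ∈ maximalIdeal P := by
    have := Ideal.sub_mem _ h1 h2
    rwa [sub_sub_cancel] at this
  exact (mem_maximalIdeal _).1 h3 ((IsUnit.mk0 _ hp).map (algebraMap K P))

theorem span_a (ha : ∀ i, a i ∈ maximalIdeal P)
    (hx : ∀ x : P, ∃ u v : MvPolynomial (Fin m) K, constantCoeff v ≠ 0 ∧
      aeval a v * x = aeval a u) : Ideal.span (Set.range a) = maximalIdeal P := by
  apply le_antisymm
  · rw [Ideal.span_le]
    rintro _ ⟨i, rfl⟩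
    exact ha i
  · intro x hxm
    obtain ⟨u, v, hv, huv⟩ := hx x
    have h1 : constantCoeff u = 0 := by
      by_contra h
      have h2 := isUnit_aeval a ha u h
      rw [← huv] at h2
      exact (mem_maximalIdeal _).1 hxm (isUnit_of_mul_isUnit_right h2)
    have h2 := aeval_sub_mem a ha u
    rw [h1, map_zero, sub_zero, ← huv] at h2
    exact (Ideal.unit_mul_mem_iff_mem _ (isUnit_aeval a ha v hv)).1 h2

theorem exists_J (ha : ∀ i, a i ∈ maximalIdeal P)
    (hspan : Ideal.span (Set.range a) = maximalIdeal P) :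
    ∃ J : Finset (Fin m), (J.card : WithBot ℕ∞) = ringKrullDim P ∧
      Ideal.span (a '' (J : Set (Fin m))) = maximalIdeal P := by
  classical
  let w : Fin m → maximalIdeal P := fun i => ⟨a i, ha i⟩
  have h1 : Submodule.span P (Set.range w) = ⊤ := by
    apply Submodule.map_injective_of_injective (maximalIdeal P).injective_subtype
    rw [Submodule.map_span, Submodule.map_top, Submodule.range_subtype, ← Set.range_comp]
    exact hspan
  have h2 := CotangentSpace.span_image_eq_top_iff.2 h1
  rw [← Set.range_comp] at h2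
  obtain ⟨κ, e, he, hsp, hli⟩ := exists_linearIndependent' (ResidueField P)
    ((maximalIdeal P).toCotangent ∘ w)
  rw [h2] at hsp
  have hfin : Finite κ := Finite.of_injective e he
  have := Fintype.ofFinite κ
  let b : Module.Basis κ (ResidueField P) (CotangentSpace P) := Module.Basis.mk hli hsp.ge
  refine ⟨Finset.univ.image e, ?_, ?_⟩
  · rw [← Pool.Agent.H379R3.finrank_cotangent, Module.finrank_eq_card_basis b,
      Finset.card_image_of_injective _ he, Finset.card_univ]
  · have h3 := Pool.Agent.H379R3.span_of_basis b (fun k => w (e k)) (fun k => by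
      rw [Module.Basis.mk_apply]; rfl)
    rw [← h3]
    congr 1
    ext x
    simp [w]

theorem exists_VU (ha : ∀ i, a i ∈ maximalIdeal P)
    (hx : ∀ x : P, ∃ u v : MvPolynomial (Fin m) K, constantCoeff v ≠ 0 ∧
      aeval a v * x = aeval a u) (J : Finset (Fin m)) (x : P)
    (h : x ∈ Ideal.span (a '' (J : Set (Fin m)))) :
    ∃ (V : MvPolynomial (Fin m) K) (U : Fin m → MvPolynomial (Fin m) K), constantCoeff V ≠ 0 ∧
      aeval a V * x = ∑ j ∈ J, aeval a (U j) * a j := by
  classical
  induction h using Submodule.span_induction with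
  | mem x hxm =>
    obtain ⟨i, hi, rfl⟩ := hxm
    refine ⟨1, fun j => if j = i then 1 else 0, by simp, ?_⟩
    rw [map_one, one_mul, Finset.sum_eq_single i]
    · simp
    · intro j _ hj
      simp [hj]
    · intro h
      exact absurd hi h
  | zero => exact ⟨1, fun _ => 0, by simp, by simp⟩
  | add x y _ _ hx hy =>
    obtain ⟨V, U, hV, hU⟩ := hx
    obtain ⟨V', U', hV', hU'⟩ := hy
    refine ⟨V * V', fun j => V' * U j + V * U' j, by
      rw [map_mul]; exact mul_ne_zero hV hV', ?_⟩
    have : ∑ j ∈ J, aeval a (V' * U j + V * U' j) * a j =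
        aeval a V' * ∑ j ∈ J, aeval a (U j) * a j + aeval a V * ∑ j ∈ J, aeval a (U' j) * a j := by
      rw [Finset.mul_sum, Finset.mul_sum, ← Finset.sum_add_distrib]
      refine Finset.sum_congr rfl fun j _ => ?_
      rw [map_add, map_mul, map_mul]
      ring
    rw [this, ← hU, ← hU', map_mul]
    ring
  | smul r x _ hx' =>
    obtain ⟨V, U, hV, hU⟩ := hx'
    obtain ⟨u, v, hv, huv⟩ := hx r
    refine ⟨v * V, fun j => u * U j, by rw [map_mul]; exact mul_ne_zero hv hV, ?_⟩
    have : ∑ j ∈ J, aeval a (u * U j) * a j = aeval a u * ∑ j ∈ J, aeval a (U j) * a j := by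
      rw [Finset.mul_sum]
      refine Finset.sum_congr rfl fun j _ => ?_
      rw [map_mul]
      ring
    rw [this, ← hU, ← huv, map_mul, smul_eq_mul]
    ring

end

theorem ker_eq (m : ℕ) (K : Type u) [Field K] :
    RingHom.ker (constantCoeff : MvPolynomial (Fin m) K →+* K) =
      Ideal.span (Set.range (X : Fin m → MvPolynomial (Fin m) K)) := by
  apply le_antisymm
  · intro p hp
    have h1 := mem_span_X p
    rw [RingHom.mem_ker] at hp
    rwa [hp, map_zero, sub_zero] at h1
  · rw [Ideal.span_le]
    rintro _ ⟨i, rfl⟩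
    change constantCoeff (X i : MvPolynomial (Fin m) K) = 0
    simp

theorem t_alg : Pool.Agent.N102.CP.S_ALG.{u} := by
  intro K P _ _ _ _ m a ha hx
  classical
  have hsp := span_a a ha hx
  obtain ⟨J, hJc, hJs⟩ := exists_J a ha hsp
  have hVU : ∀ i, ∃ (V : MvPolynomial (Fin m) K) (U : Fin m → MvPolynomial (Fin m) K),
      constantCoeff V ≠ 0 ∧ aeval a V * a i = ∑ j ∈ J, aeval a (U j) * a j :=
    fun i => exists_VU a ha hx J (a i) (by rw [hJs]; exact ha i)
  choose V U hV hU using hVU
  refine ⟨J, V, U, fun i _ => hV i, fun i _ => hU i, fun g hg => ?_⟩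
  let n : Ideal (MvPolynomial (Fin m) K) :=
    RingHom.ker (constantCoeff : MvPolynomial (Fin m) K →+* K)
  have hn : n.IsPrime := RingHom.ker_isPrime _
  set F : Set (MvPolynomial (Fin m) K) := {f | ∃ i ∉ J, f = V i * X i - ∑ j ∈ J, U i j * X j}
    with hF
  let S := Localization.AtPrime n
  have hnoeth : IsNoetherianRing S := IsLocalization.isNoetherianRing n.primeCompl _ inferInstance
  let φ : MvPolynomial (Fin m) K →+* P := (aeval a : MvPolynomial (Fin m) K →ₐ[K] P).toRingHom
  have hφ : ∀ y : n.primeCompl, IsUnit (φ y) := fun y => isUnit_aeval a ha y.1 fun h => y.2 h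
  let θ : S →+* P := IsLocalization.lift hφ
  have hθ : ∀ p : MvPolynomial (Fin m) K, θ (algebraMap _ S p) = aeval a p :=
    fun p => IsLocalization.lift_eq hφ p
  have hsurj : Function.Surjective θ := by
    intro x
    obtain ⟨u, v, hv, huv⟩ := hx x
    refine ⟨IsLocalization.mk' S u (⟨v, hv⟩ : n.primeCompl), ?_⟩
    exact (IsLocalization.lift_mk'_spec (S := S) hφ u x (⟨v, hv⟩ : n.primeCompl)).2 huv.symm
  let I : Ideal S := (Ideal.span F).map (algebraMap _ S)
  have hI : I ≤ RingHom.ker θ := by
    rw [Ideal.map_le_iff_le_comap, Ideal.span_le]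
    rintro _ ⟨i, hi, rfl⟩
    change θ (algebraMap _ S _) = 0
    rw [hθ, map_sub, map_mul, aeval_X, hU i, map_sum, sub_eq_zero]
    refine Finset.sum_congr rfl fun j _ => ?_
    rw [map_mul, aeval_X]
  have hnt : Nontrivial (S ⧸ I) := by
    apply Ideal.Quotient.nontrivial_iff.2
    intro h
    have h1 : (1 : S) ∈ RingHom.ker θ := hI (by rw [h]; trivial)
    rw [RingHom.mem_ker, map_one] at h1
    exact one_ne_zero h1
  have hloc : IsLocalRing (S ⧸ I) :=
    IsLocalRing.of_surjective' (Ideal.Quotient.mk I) Ideal.Quotient.mk_surjective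
  let θ' : S ⧸ I →+* P := Ideal.Quotient.lift I θ fun x hx => hI hx
  have hsurj' : Function.Surjective θ' := Ideal.Quotient.lift_surjective_of_surjective _ _ hsurj
  let ξ : Fin m → S ⧸ I := fun j =>
    Ideal.Quotient.mk I (algebraMap (MvPolynomial (Fin m) K) S (X j))
  have hmax : maximalIdeal (S ⧸ I) = Ideal.span (Set.range ξ) := by
    have e1 : (maximalIdeal S).map (Ideal.Quotient.mk I) = maximalIdeal (S ⧸ I) :=
      Pool.Agent.H379R3.map_mk_maximalIdeal I
    have e2 : n.map (algebraMap (MvPolynomial (Fin m) K) S) = maximalIdeal S :=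
      Localization.AtPrime.map_eq_maximalIdeal
    have e3 : n.map (algebraMap (MvPolynomial (Fin m) K) S) = Ideal.map
        (algebraMap (MvPolynomial (Fin m) K) S)
        (Ideal.span (Set.range (X : Fin m → MvPolynomial (Fin m) K))) :=
      congrArg (fun q => Ideal.map (algebraMap (MvPolynomial (Fin m) K) S) q) (ker_eq m K)
    rw [← e1, ← e2, e3, Ideal.map_span, Ideal.map_span]
    congr 1
    ext x
    simp [ξ]
  have hG : Ideal.span (ξ '' (J : Set (Fin m))) = maximalIdeal (S ⧸ I) := by
    rw [hmax]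
    apply le_antisymm
    · exact Ideal.span_mono (Set.image_subset_range _ _)
    · rw [Ideal.span_le]
      rintro _ ⟨i, rfl⟩
      by_cases hi : i ∈ J
      · exact Ideal.subset_span ⟨i, hi, rfl⟩
      · have h1 : Ideal.Quotient.mk I (algebraMap (MvPolynomial (Fin m) K) S
            (V i * X i - ∑ j ∈ J, U i j * X j)) = 0 :=
          Ideal.Quotient.eq_zero_iff_mem.2
            (Ideal.mem_map_of_mem _ (Ideal.subset_span ⟨i, hi, rfl⟩))
        rw [map_sub, map_sub, map_mul, map_mul, map_sum, map_sum, sub_eq_zero] at h1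
        have hu : IsUnit (Ideal.Quotient.mk I (algebraMap _ S (V i))) :=
          (IsLocalization.map_units S (⟨V i, hV i⟩ : n.primeCompl)).map (Ideal.Quotient.mk I)
        refine (Ideal.unit_mul_mem_iff_mem _ hu).1 ?_
        change _ * Ideal.Quotient.mk I (algebraMap (MvPolynomial (Fin m) K) S (X i)) ∈ _
        rw [h1]
        refine Ideal.sum_mem _ fun j hj => ?_
        rw [map_mul, map_mul]
        exact Ideal.mul_mem_left _ (Ideal.Quotient.mk I (algebraMap _ S (U i j)))
          (Ideal.subset_span (show ξ j ∈ ξ '' (J : Set (Fin m)) from ⟨j, hj, rfl⟩))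
  have hc : (((ξ '' (J : Set (Fin m))).ncard : ℕ) : WithBot ℕ∞) ≤ ringKrullDim P := by
    rw [← hJc]
    have h1 : (ξ '' (J : Set (Fin m))).ncard ≤ J.card := by
      refine (Set.ncard_image_le (Finset.finite_toSet J)).trans ?_
      rw [Set.ncard_coe_finset]
    exact_mod_cast h1
  have hinj := inj_of θ' hsurj' _ ((Finset.finite_toSet J).image ξ) hG hc
  have h1 : Ideal.Quotient.mk I (algebraMap _ S g) = 0 := by
    apply hinj
    rw [map_zero]
    change θ (algebraMap _ S g) = 0
    rw [hθ, hg]
  rw [Ideal.Quotient.eq_zero_iff_mem] at h1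
  obtain ⟨⟨⟨f, hf⟩, s⟩, h2⟩ := (IsLocalization.mem_map_algebraMap_iff n.primeCompl S).1 h1
  have h3 : g * s.1 = f := by
    apply IsLocalization.injective S (M := n.primeCompl) n.primeCompl_le_nonZeroDivisors
    rw [map_mul]
    exact h2
  refine ⟨s.1, fun h => s.2 h, ?_⟩
  rw [mul_comm, h3]
  exact hf

end Pool.Agent.N717.CP
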